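import Pool.Agent.Y643.TC.Asym

/-!
# Pure dynamic programming has no constant approximation ratio for weighted vertex cover

A (min, +) program (tropical circuit, `Prog`) takes as inputs the weights of the vertices and
nonnegative constants; each of its gates computes the minimum or the sum of two functions which
are inputs or are computed at earlier gates. `Approx G r f` says that the function `f` of the
weights satisfies `OPT(G, w) ≤ f w ≤ r * OPT(G, w)` for all nonnegative weights `w`.

For every constant `r` there are graphs for which every such program has exponential size
`2 ^ (c * M)`. The graph `conorm R M` has the `(2 * M) ^ R` tuples of `R` literals as vertices;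
two of them are adjacent if they contain, at the same place, opposite literals. Here `R` is a
constant (`R ≥ 1000 * r ^ 2`) and `M` tends to infinity, so that the number of vertices `n` is
`(2 * M) ^ R` and the bound on the number of gates is `2 ^ ((c / 2) * n ^ (1 / R))`.
-/

set_option autoImplicit false

namespace Pool.Agent.Results.MP_cff830_lc.PureDynamicProgramming

open Pool.Agent.Y643.TC

theorem result (r : ℝ) (hr : 1 ≤ r) (R : ℕ) (hR : 1000 * r ^ 2 ≤ R) :
    ∃ c : ℝ, 0 < c ∧ ∃ M₀ : ℕ, ∀ M : ℕ, M₀ ≤ M →
      ∀ l : List ((Vtx R M → ℝ) → ℝ), Prog l →
        ∀ f ∈ l, Approx (conorm R M) r f → (2 : ℝ) ^ (c * M) ≤ l.length :=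
  lower_bound r hr R hR

end Pool.Agent.Results.MP_cff830_lc.PureDynamicProgramming
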