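import Pool.Agent.Y601.LD.VCFin

set_option autoImplicit false

/-!
# Weighted vertex cover, threshold decision trees and threshold circuits of depth two: the ratio two

The definitions used in the statement are in `Pool/Agent/Y601/LD/VCDefs.lean` (`IsGraph`, `IsCover`,
`weight`, `Tells`), in `Pool/Agent/Y601/LD/Defs.lean` (`CmpTree`, `label`, `total`, `LowRank`,
`LowRank.val`) and in `Pool/Agent/Y601/LD/BitDefs.lean` (`BitCircuit`, `BitCircuit.val`).

The input is a graph with `n` vertices (its adjacency matrix) and weights 0, 1 of the vertices. The
problem is to tell the weighted graphs with a vertex cover of weight at most `k` from those in which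
every vertex cover has weight at least `ρ k`; every approximation of the minimum weight with a ratio
less than `ρ` solves it. The model: a decision tree of any depth asks arbitrary threshold questions
about the input, with arbitrary real weights; more generally, a question compares an arbitrary
function of the graph with an arbitrary function of the weights. At the leaf which is reached the
answer is given by a threshold circuit of depth two, with arbitrary real weights at the output gate
and small integer weights at the other gates; more generally, by the sign of a matrix of small rank
(rows: the graphs, columns: the weights). The model contains linear decision lists, linear decision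
trees and deterministic and unbounded-error protocols.

(1) For every ratio less than 2 the total size is at least `n ^ (γ log n)`: as conjectured for
polynomial-time algorithms, no constant ratio less than 2 is possible with polynomial size.
(2) For every ratio less than `7 / 6` the total size is at least `2 ^ (γ n)`.

Idea of the proof. (1) There are `s` variables and `s` constraints; each constraint says that given
differences of `4 E + 1` variables have given values, so it has only two satisfying local
assignments. A random system of constraints is chosen such that small sets of constraints (up to
`c log s`) are forests; then the right-hand sides of the satisfiable systems form a code of dual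
distance at least `c log s`. Alice has many versions of each constraint, the weights select one of
them and mask it. In the graph of the local assignments the minimum weight is `s` for the
satisfiable systems, and at least `(2 - 1 / E) s` for most systems, as no assignment satisfies a
fraction `1 / E` of the constraints. (2) The same with linear equations in three variables, which
have four satisfying local assignments and a code of dual distance `c s`. In both cases the matrix
of the code composed with the selection has a small norm, a tree is constant on a large rectangle,
and the method of Forster, Razborov and Sherstov is applied to the leaf.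
-/

namespace Pool.Agent.Results.MP_cff830_lc.RatioTwoThresholdTrees

open Pool.Agent.Y601.LD

/-- For every `ε > 0` there is `γ > 0` such that for all large `n` there is a number `k ≥ 1` with the
following property, with `ρ = 2 - ε`, `B = n ^ (γ log n)`, and also with `ρ = 7 / 6 - ε`,
`B = 2 ^ (γ n)` (with another `k`). Let `T` be a decision tree whose questions have the form
`a (graph) + b (weights) ≥ 0`, with arbitrary real functions `a`, `b`, such that for each graph with
`n` vertices and all weights 0, 1 of the vertices the value at the leaf which is reached is positive
if there is a vertex cover of weight at most `k`, and not positive if every vertex cover has weight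
at least `ρ k`.

First, if the value at a leaf is a function of rank at most `r` of the graph and the weights, then
the sum of the numbers `r + 1` over all leaves is at least `B`. Second, if the value at a leaf is
the sum of `S` arbitrary functions of integer linear forms in the entries of the adjacency matrix and
the weights, such that the coefficients of the entries, or those of the weights, have absolute values
with sum at most `R`, then the sum of the numbers `S + 1` over all leaves, times `2 R + 1`, is at
least `B`. -/
theorem result (ε : ℝ) (hε : 0 < ε) :
    (∃ γ : ℝ, 0 < γ ∧ ∃ n₀ : ℕ, ∀ n : ℕ, n₀ ≤ n → ∃ k : ℕ, 0 < k ∧
      (∀ T : CmpTree (Fin n × Fin n → Bool) (Fin n → Bool)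
          (LowRank (Fin n × Fin n → Bool) (Fin n → Bool)),
        Tells k (2 - ε) (fun a w => (T.label a w).val a w) →
        (n : ℝ) ^ (γ * Real.log n) ≤ (T.total fun l => l.r + 1 : ℕ)) ∧
      ∀ (R : ℕ) (T : CmpTree (Fin n × Fin n → Bool) (Fin n → Bool)
          (BitCircuit (Fin n × Fin n) (Fin n) R)),
        Tells k (2 - ε) (fun a w => (T.label a w).val a w) →
        (n : ℝ) ^ (γ * Real.log n) ≤ ((2 * R + 1) * T.total fun c => c.S + 1 : ℕ)) ∧
    ∃ γ : ℝ, 0 < γ ∧ ∃ n₀ : ℕ, ∀ n : ℕ, n₀ ≤ n → ∃ k : ℕ, 0 < k ∧
      (∀ T : CmpTree (Fin n × Fin n → Bool) (Fin n → Bool)
          (LowRank (Fin n × Fin n → Bool) (Fin n → Bool)),
        Tells k (7 / 6 - ε) (fun a w => (T.label a w).val a w) →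
        (2 : ℝ) ^ (γ * n) ≤ (T.total fun l => l.r + 1 : ℕ)) ∧
      ∀ (R : ℕ) (T : CmpTree (Fin n × Fin n → Bool) (Fin n → Bool)
          (BitCircuit (Fin n × Fin n) (Fin n) R)),
        Tells k (7 / 6 - ε) (fun a w => (T.label a w).val a w) →
        (2 : ℝ) ^ (γ * n) ≤ ((2 * R + 1) * T.total fun c => c.S + 1 : ℕ) :=
  vc_fin hε

end Pool.Agent.Results.MP_cff830_lc.RatioTwoThresholdTrees
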