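import Pool.Agent.Y631.WcCov

/-!
# Approximation of vertex covers by word circuits: no ratio below two with few reads

The input is the list of the `m` edges of a simple graph (all vertices have weight 1). We consider
nondeterministic straight-line programs for such inputs (`WCirc`): each of the gates holds a word (an
element of a finite set `Z`), which may be any value that is allowed by an ARBITRARY relation to at
most `κ` items of the list and words of earlier gates (so a gate may compute any function, or guess
an arbitrary word). The relevant parameters are

* the number of reads `C.reads`: the number of wires from items to gates; this is a lower bound for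
  the running time,
* the treewidth `θ` of the graph of the gates (whose edges are the wires between gates; the items are
  deleted). A program with few registers has small treewidth, but a circuit of small treewidth may
  use arbitrarily many words at the same time.

**Result.** For every constant `ρ < 2`, a nondeterministic circuit that computes the size of a
smallest vertex cover up to the factor `ρ`, with words of `O (log m)` bits, constant fan-in and
treewidth at most `m ^ (1 - ε)`, has at least `(ε / 30) m log₂ m` reads (for large `m`). This is so even
if the circuit may guess a vertex cover: it cannot check it.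

**Proof.** The circuit is cut into `O (r²)` parts with few reads in each of them by the removal of
`O (r² (θ + 1))` gates. By averaging there are sets `A` and `E` of `k = m / 2 ^ O (r)` places of the
list and a division of the parts into two sides such that the places in `A` are read on the first
side only, and those of `E` on the second side only. The `j`-th place of `A` gets an edge
`{w (j, a_j), u_j}`, the `j`-th place of `E` an edge `{w (j, b_j), v_j}`, and the other places the
edges of a star. If `a = b` then there is a vertex cover with `k + 1` vertices, and if `a` and `b`
differ at more than `k - d` places, each vertex cover has at least `2 k + 2 - d` vertices. For the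
codewords `a = b` of a Reed–Solomon code, two inputs with the same values of the removed gates (and of
those they are joined to) can be mixed, which turns a graph with a small vertex cover into one for
which all vertex covers are large.
-/

set_option autoImplicit false

namespace Pool.Agent.Results.MP_cff830_lc.RatioTwoTreewidth

open Pool.Agent.Y631.Wc

/-- (A) Let `C` be a nondeterministic word circuit for lists of `m` edges of graphs with the
vertices `0, …, n - 1`, whose gates have fan-in at most `κ` and values in `Z`, with at most `r m`
reads, and of treewidth at most `θ`. Let `q` be a prime, `1 ≤ d ≤ k ≤ q ≤ L`, `|Z| ≤ L`,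
`2 ^ (24 r + 1) k ≤ m` and `q k + 2 k + 1 + m ≤ n`. If `C` accepts all graphs which have a vertex
cover of size at most `k + 1` and rejects all graphs for which every vertex cover has size at least
`2 k + 2 - d`, then `q ^ d ≤ L ^ (10000 r² (κ + 1) (θ + 1))`.

(B) For all `N ≥ 1`, `c`, `κ` and `0 < ε ≤ 1`, for all large `m` and `n ≥ 4 m²`: each nondeterministic
word circuit of fan-in `κ` whose gates have at most `m ^ c` values (words of `c log m` bits), of
treewidth at most `m ^ (1 - ε)`, which approximates the size of a smallest vertex cover up to the
factor `2 - 1 / N` (the value of the output is always an upper bound of this size, and some possible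
value is at most `2 - 1 / N` times this size), has at least `(ε / 30) m log₂ m` reads. -/
theorem result :
    (∀ {r κ θ m n q k d L : ℕ} (_ : 1 ≤ r) (_ : q.Prime) (_ : k ≤ q) (_ : q ≤ L)
      (_ : 1 ≤ d) (_ : d ≤ k) (_ : 2 ^ (24 * r + 1) * k ≤ m) (_ : q * k + 2 * k + 1 + m ≤ n)
      {Z : Type} [Fintype Z] (_ : Fintype.card Z ≤ L)
      (C : WCirc (Fin m) (ℕ × ℕ) Z) (_ : C.FanIn κ) (_ : C.TreewidthLE θ)
      (_ : C.reads ≤ r * m)
      (_ : ∀ x, IsGraph n x → (∃ S, IsCover x S ∧ S.card ≤ k + 1) → C.Accepts x)
      (_ : ∀ x, IsGraph n x → C.Accepts x → ∃ S, IsCover x S ∧ S.card + d ≤ 2 * k + 1),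
      q ^ d ≤ L ^ (10000 * r ^ 2 * (κ + 1) * (θ + 1))) ∧
    ∀ (N c κ : ℕ), 1 ≤ N → ∀ ε : ℝ, 0 < ε → ε ≤ 1 → ∃ m₀ : ℕ, ∀ m ≥ m₀, ∀ n ≥ 4 * m ^ 2,
      ∀ (Z : Type) [Fintype Z], Fintype.card Z ≤ m ^ c →
      ∀ (C : WCirc (Fin m) (ℕ × ℕ) Z) (θ : ℕ) (val : Z → ℝ), C.FanIn κ → C.TreewidthLE θ →
        (θ : ℝ) ≤ (m : ℝ) ^ (1 - ε) → C.Approximates n (2 - 1 / N) val →
        ε / 30 * (m * Real.logb 2 m) ≤ C.reads :=
  ⟨fun hr hq hkq hqL hd hdk hk hn _ _ hZ C hκ hθ hR hyes hno =>
    vc_bound hr hq hkq hqL hd hdk hk hn hZ C hκ hθ hR hyes hno, vc_superlinear⟩

end Pool.Agent.Results.MP_cff830_lc.RatioTwoTreewidth
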